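import Mathlib

/-!
# The fields `X` do not minimise the energy on the Berger spheres with `μ > 1`

`ℝ⁴` is identified with the quaternions, `x = x 0 + x 1 i + x 2 j + x 3 k`, and `S³` is its unit
sphere.  `J0, J1, J2` are left multiplication by `i, j, k`; the Hopf field is `H x = J0 x`.

For `μ > ((3 + √57) / 8) ^ 2 = 1.739...` the unit vector field
`W = v0 H_μ + v1 E_1 + v2 E_2`, where `v x = x i x⁻¹` (the coefficients of the Hopf field
of the other handedness), has strictly smaller energy than every field `a1 E_1 + a2 E_2`.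
Hence the answer to Q1 is negative.
-/

open MeasureTheory Metric
open scoped ContDiff Pointwise

noncomputable section
namespace Pool.Agent.Results.MP_627409_gt.XNotMinimising

/-! ## Definitions used by the statement -/

/-- `ℝ⁴`, identified with the quaternions by `x = x 0 + x 1 i + x 2 j + x 3 k`. -/
abbrev R4 : Type := EuclideanSpace ℝ (Fin 4)

/-- Left multiplication by the quaternion `i`; `H x = J0 x` is the Hopf field on `S³`. -/
def J0 (x : R4) : R4 := !₂[-x 1, x 0, -x 3, x 2]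

/-- Left multiplication by the quaternion `j`; `E_1 x = J1 x`. -/
def J1 (x : R4) : R4 := !₂[-x 2, x 3, x 0, -x 1]

/-- Left multiplication by the quaternion `k`; `E_2 x = J2 x`. -/
def J2 (x : R4) : R4 := !₂[-x 3, -x 2, x 1, x 0]

/-- The Berger metric `g_μ` at the point `x ∈ S³`, on tangent vectors `a, b`:
`g_μ(a, b) = ⟨a, b⟩ + (μ - 1) ⟨a, H⟩ ⟨b, H⟩` (so `g_μ(H, H) = μ`, `g_μ = g` on `H^⊥`,
`g_μ(H, H^⊥) = 0`). -/
def gB (μ : ℝ) (x a b : R4) : ℝ :=
  inner ℝ a b + (μ - 1) * (inner ℝ a (J0 x) * inner ℝ b (J0 x))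

/-- A smooth vector field on `S³`, given through a smooth extension to `ℝ⁴ ∖ {0}`
(every smooth vector field on `S³` has one). Only its values on `S³` matter below. -/
structure IsVectorField (V : R4 → R4) : Prop where
  smooth : ContDiffOn ℝ ∞ V {x | x ≠ 0}
  tangent : ∀ x ∈ sphere (0 : R4) 1, inner ℝ (V x) x = 0

/-- A unit vector field for `g_μ`. -/
def IsUnitField (μ : ℝ) (V : R4 → R4) : Prop :=
  IsVectorField V ∧ ∀ x ∈ sphere (0 : R4) 1, gB μ x (V x) (V x) = 1

/-- `D` is the Levi-Civita connection of `g_μ` on `S³` (`D A B` is `∇_A B`): it is torsion-free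
and metric. (These two properties determine `D A B` on `S³` for all smooth fields `A, B`, by the
Koszul formula.) -/
structure IsLeviCivita (μ : ℝ) (D : (R4 → R4) → (R4 → R4) → (R4 → R4)) : Prop where
  tangent : ∀ A B, IsVectorField A → IsVectorField B →
    ∀ x ∈ sphere (0 : R4) 1, inner ℝ (D A B x) x = 0
  torsion_free : ∀ A B, IsVectorField A → IsVectorField B →
    ∀ x ∈ sphere (0 : R4) 1, D A B x - D B A x = VectorField.lieBracket ℝ A B x
  metric : ∀ A B C, IsVectorField A → IsVectorField B → IsVectorField C →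
    ∀ x ∈ sphere (0 : R4) 1,
      fderiv ℝ (fun y => gB μ y (B y) (C y)) x (A x) =
        gB μ x (D A B x) (C x) + gB μ x (B x) (D A C x)

/-- The global `g_μ`-orthonormal frame `H_μ = H / √μ, E_1, E_2`. -/
def frame (μ : ℝ) : Fin 3 → R4 → R4 :=
  ![fun x => (Real.sqrt μ)⁻¹ • J0 x, J1, J2]

/-- `‖∇V‖²` at `x`, computed in the orthonormal frame: `∑ i, g_μ(∇_{e_i} V, ∇_{e_i} V)`. -/
def gradSq (μ : ℝ) (D : (R4 → R4) → (R4 → R4) → (R4 → R4)) (V : R4 → R4) (x : R4) : ℝ :=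
  ∑ i, gB μ x (D (frame μ i) V x) (D (frame μ i) V x)

/-- The volume of `(S³, g_μ)`; the Riemannian measure is `dv_μ = √μ dσ` with `σ` the standard
surface measure of the unit sphere `S³`. -/
def volB (μ : ℝ) : ℝ := Real.sqrt μ * (volume : Measure R4).toSphere.real Set.univ

/-- The energy `E(V) = 3/2 vol(S³, g_μ) + 1/2 ∫ ‖∇V‖² dv_μ`. -/
def energy (μ : ℝ) (D : (R4 → R4) → (R4 → R4) → (R4 → R4)) (V : R4 → R4) : ℝ :=
  3 / 2 * volB μ + 1 / 2 * (Real.sqrt μ *
    ∫ x : sphere (0 : R4) 1, gradSq μ D V x ∂((volume : Measure R4).toSphere))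

/-- The fields `X = a1 E_1 + a2 E_2`. -/
def X (a1 a2 : ℝ) (x : R4) : R4 := a1 • J1 x + a2 • J2 x

/-! ## Proofs -/

lemma inner4 (a b : R4) : inner ℝ a b = a 0 * b 0 + a 1 * b 1 + a 2 * b 2 + a 3 * b 3 := by
  simp [PiLp.inner_apply, Fin.sum_univ_four]; ring

@[simp] lemma J0_0 (x : R4) : J0 x 0 = - x 1 := rfl
@[simp] lemma J0_1 (x : R4) : J0 x 1 = x 0 := rfl
@[simp] lemma J0_2 (x : R4) : J0 x 2 = - x 3 := rfl
@[simp] lemma J0_3 (x : R4) : J0 x 3 = x 2 := rfl
@[simp] lemma J1_0 (x : R4) : J1 x 0 = - x 2 := rfl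
@[simp] lemma J1_1 (x : R4) : J1 x 1 = x 3 := rfl
@[simp] lemma J1_2 (x : R4) : J1 x 2 = x 0 := rfl
@[simp] lemma J1_3 (x : R4) : J1 x 3 = - x 1 := rfl
@[simp] lemma J2_0 (x : R4) : J2 x 0 = - x 3 := rfl
@[simp] lemma J2_1 (x : R4) : J2 x 1 = - x 2 := rfl
@[simp] lemma J2_2 (x : R4) : J2 x 2 = x 1 := rfl
@[simp] lemma J2_3 (x : R4) : J2 x 3 = x 0 := rfl

def J0L : R4 →L[ℝ] R4 := LinearMap.toContinuousLinearMap
  { toFun := J0
    map_add' := by intro x y; ext i; fin_cases i <;> simp <;> ring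
    map_smul' := by intro c x; ext i; fin_cases i <;> simp }
def J1L : R4 →L[ℝ] R4 := LinearMap.toContinuousLinearMap
  { toFun := J1
    map_add' := by intro x y; ext i; fin_cases i <;> simp <;> ring
    map_smul' := by intro c x; ext i; fin_cases i <;> simp }
def J2L : R4 →L[ℝ] R4 := LinearMap.toContinuousLinearMap
  { toFun := J2
    map_add' := by intro x y; ext i; fin_cases i <;> simp <;> ring
    map_smul' := by intro c x; ext i; fin_cases i <;> simp }

lemma coe_J0L : ⇑J0L = J0 := rfl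
lemma coe_J1L : ⇑J1L = J1 := rfl
lemma coe_J2L : ⇑J2L = J2 := rfl

lemma sphere_sq {x : R4} (hx : x ∈ sphere (0 : R4) 1) :
    x 0 ^ 2 + x 1 ^ 2 + x 2 ^ 2 + x 3 ^ 2 = 1 := by
  have h : ‖x‖ = 1 := by simpa using hx
  have h2 := EuclideanSpace.real_norm_sq_eq x
  rw [h, Fin.sum_univ_four] at h2
  linarith

lemma sphere_ne {x : R4} (hx : x ∈ sphere (0 : R4) 1) : x ≠ 0 := by
  rintro rfl
  simp at hx

lemma expand {x a : R4} (hx : x ∈ sphere (0 : R4) 1) (ha : inner ℝ a x = 0) :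
    a = (inner ℝ a (J0 x)) • J0 x + (inner ℝ a (J1 x)) • J1 x + (inner ℝ a (J2 x)) • J2 x := by
  have hx := sphere_sq hx
  rw [inner4] at ha
  simp only [inner4]
  ext i
  fin_cases i
  · simp
    linear_combination (- a 0) * hx + x 0 * ha
  · simp
    linear_combination (- a 1) * hx + x 1 * ha
  · simp
    linear_combination (- a 2) * hx + x 2 * ha
  · simp
    linear_combination (- a 3) * hx + x 3 * ha

/-! ### the metric -/

lemma gB_comm (μ : ℝ) (x a b : R4) : gB μ x a b = gB μ x b a := by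
  unfold gB; rw [real_inner_comm]; ring
lemma gB_add_left (μ : ℝ) (x a b c : R4) : gB μ x (a + b) c = gB μ x a c + gB μ x b c := by
  unfold gB; rw [inner_add_left, inner_add_left]; ring
lemma gB_sub_left (μ : ℝ) (x a b c : R4) : gB μ x (a - b) c = gB μ x a c - gB μ x b c := by
  unfold gB; rw [inner_sub_left, inner_sub_left]; ring
lemma gB_smul_left (μ : ℝ) (x : R4) (t : ℝ) (a c : R4) : gB μ x (t • a) c = t * gB μ x a c := by
  unfold gB; rw [real_inner_smul_left, real_inner_smul_left]; ring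
lemma gB_add_right (μ : ℝ) (x a b c : R4) : gB μ x c (a + b) = gB μ x c a + gB μ x c b := by
  rw [gB_comm, gB_add_left, gB_comm μ x a, gB_comm μ x b]
lemma gB_sub_right (μ : ℝ) (x a b c : R4) : gB μ x c (a - b) = gB μ x c a - gB μ x c b := by
  rw [gB_comm, gB_sub_left, gB_comm μ x a, gB_comm μ x b]
lemma gB_smul_right (μ : ℝ) (x : R4) (t : ℝ) (a c : R4) : gB μ x c (t • a) = t * gB μ x c a := by
  rw [gB_comm, gB_smul_left, gB_comm μ x a]

/-! ### tangential derivatives -/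

lemma fderiv_tangent_congr {E : Type*} [NormedAddCommGroup E] [NormedSpace ℝ E]
    {F F' : R4 → E} {x a : R4}
    (hx : x ∈ sphere (0 : R4) 1) (ha : inner ℝ a x = 0)
    (hF : DifferentiableAt ℝ F x) (hF' : DifferentiableAt ℝ F' x)
    (h : ∀ y ∈ sphere (0 : R4) 1, F y = F' y) :
    fderiv ℝ F x a = fderiv ℝ F' x a := by
  set c : ℝ := ‖a‖ ^ 2 with hc
  have hc0 : 0 ≤ c := by positivity
  let γ : ℝ → R4 := fun t => (Real.sqrt (1 + t ^ 2 * c))⁻¹ • (x + t • a)
  have hγ0 : γ 0 = x := by simp [γ]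
  have hxn : ‖x‖ = 1 := by simpa using hx
  have hγS : ∀ t, γ t ∈ sphere (0 : R4) 1 := by
    intro t
    have h1 : ‖x + t • a‖ ^ 2 = 1 + t ^ 2 * c := by
      rw [norm_add_sq_real, real_inner_smul_right, real_inner_comm, ha, hxn, norm_smul, hc]
      simp [mul_pow]
    have h2 : ‖x + t • a‖ = Real.sqrt (1 + t ^ 2 * c) := by
      rw [← h1, Real.sqrt_sq (norm_nonneg _)]
    have h3 : 0 < Real.sqrt (1 + t ^ 2 * c) := by positivity
    simp only [γ, mem_sphere_iff_norm, sub_zero, norm_smul, norm_inv, Real.norm_eq_abs, h2,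
      abs_of_pos h3]
    field_simp
  have hγ' : HasDerivAt γ a 0 := by
    have h1 : HasDerivAt (fun t : ℝ => 1 + t ^ 2 * c) 0 0 := by
      have := ((hasDerivAt_pow 2 (0:ℝ)).mul_const c).const_add 1
      simpa using this
    have h2 : HasDerivAt (fun t : ℝ => (Real.sqrt (1 + t ^ 2 * c))⁻¹) 0 0 := by
      have h3 := h1.sqrt (by norm_num)
      have h4 := h3.fun_inv (by norm_num)
      simpa using h4
    have h5 : HasDerivAt (fun t : ℝ => x + t • a) a 0 := by
      have := ((hasDerivAt_id (0:ℝ)).smul_const a).const_add x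
      simpa using this
    have h6 := h2.fun_smul h5
    simpa [γ, -smul_add] using h6
  have e1 : HasDerivAt (F ∘ γ) (fderiv ℝ F x a) 0 := by
    have := hF.hasFDerivAt
    rw [← hγ0] at this
    have h7 := this.comp_hasDerivAt (0:ℝ) hγ'
    rw [hγ0] at h7
    exact h7
  have e2 : HasDerivAt (F' ∘ γ) (fderiv ℝ F' x a) 0 := by
    have := hF'.hasFDerivAt
    rw [← hγ0] at this
    have h7 := this.comp_hasDerivAt (0:ℝ) hγ'
    rw [hγ0] at h7
    exact h7
  have : F ∘ γ = F' ∘ γ := by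
    funext t
    exact h _ (hγS t)
  rw [this] at e1
  exact e1.unique e2

/-! ### differentiability of the metric along fields -/

lemma IsVectorField.differentiableAt {V : R4 → R4} (hV : IsVectorField V) {x : R4}
    (hx : x ∈ sphere (0 : R4) 1) : DifferentiableAt ℝ V x := by
  have h1 : ContDiffAt ℝ ∞ V x :=
    hV.smooth.contDiffAt (isOpen_ne.mem_nhds (sphere_ne hx))
  exact h1.differentiableAt (by simp)

lemma differentiable_J0 : Differentiable ℝ J0 := by
  rw [← coe_J0L]; exact J0L.differentiable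
lemma differentiable_J1 : Differentiable ℝ J1 := by
  rw [← coe_J1L]; exact J1L.differentiable
lemma differentiable_J2 : Differentiable ℝ J2 := by
  rw [← coe_J2L]; exact J2L.differentiable

lemma gB_differentiableAt (μ : ℝ) {A B : R4 → R4} {x : R4} (hA : DifferentiableAt ℝ A x)
    (hB : DifferentiableAt ℝ B x) : DifferentiableAt ℝ (fun y => gB μ y (A y) (B y)) x := by
  unfold gB
  have h0 := differentiable_J0 x
  exact (hA.inner ℝ hB).add (((hA.inner ℝ h0).mul (hB.inner ℝ h0)).const_mul _)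

/-! ### Koszul expression -/

def K (μ : ℝ) (A B C : R4 → R4) (x : R4) : ℝ :=
  fderiv ℝ (fun y => gB μ y (B y) (C y)) x (A x)
    + fderiv ℝ (fun y => gB μ y (A y) (C y)) x (B x)
    - fderiv ℝ (fun y => gB μ y (A y) (B y)) x (C x)
    + gB μ x (VectorField.lieBracket ℝ A B x) (C x)
    - gB μ x (VectorField.lieBracket ℝ A C x) (B x)
    - gB μ x (VectorField.lieBracket ℝ B C x) (A x)

lemma IsLeviCivita.koszul {μ : ℝ} {D : (R4 → R4) → (R4 → R4) → (R4 → R4)}
    (hD : IsLeviCivita μ D) {A B C : R4 → R4} (hA : IsVectorField A) (hB : IsVectorField B)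
    (hC : IsVectorField C) {x : R4} (hx : x ∈ sphere (0 : R4) 1) :
    2 * gB μ x (D A B x) (C x) = K μ A B C x := by
  have m1 := hD.metric A B C hA hB hC x hx
  have m2 := hD.metric B A C hB hA hC x hx
  have m3 := hD.metric C A B hC hA hB x hx
  have t1 := hD.torsion_free A B hA hB x hx
  have t2 := hD.torsion_free A C hA hC x hx
  have t3 := hD.torsion_free B C hB hC x hx
  unfold K
  rw [m1, m2, m3, ← t1, ← t2, ← t3]
  simp only [gB_sub_left]
  rw [gB_comm μ x (B x) (D A C x), gB_comm μ x (A x) (D B C x), gB_comm μ x (A x) (D C B x)]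
  ring

/-! ### the frame -/

lemma frame_zero (μ : ℝ) (x : R4) : frame μ 0 x = (Real.sqrt μ)⁻¹ • J0 x := rfl
lemma frame_one (μ : ℝ) (x : R4) : frame μ 1 x = J1 x := rfl
lemma frame_two (μ : ℝ) (x : R4) : frame μ 2 x = J2 x := rfl

def frameL (μ : ℝ) : Fin 3 → (R4 →L[ℝ] R4) :=
  ![(Real.sqrt μ)⁻¹ • J0L, J1L, J2L]

lemma coe_frameL (μ : ℝ) (i : Fin 3) : ⇑(frameL μ i) = frame μ i := by
  fin_cases i <;> rfl

lemma J0_tangent (x : R4) : inner ℝ (J0 x) x = 0 := by rw [inner4]; simp; ring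
lemma J1_tangent (x : R4) : inner ℝ (J1 x) x = 0 := by rw [inner4]; simp; ring
lemma J2_tangent (x : R4) : inner ℝ (J2 x) x = 0 := by rw [inner4]; simp; ring

lemma frame_vf (μ : ℝ) (i : Fin 3) : IsVectorField (frame μ i) := by
  constructor
  · rw [← coe_frameL]
    exact (frameL μ i).contDiff.contDiffOn
  · intro x _
    fin_cases i
    · show inner ℝ ((Real.sqrt μ)⁻¹ • J0 x) x = 0
      rw [real_inner_smul_left, J0_tangent, mul_zero]
    · exact J1_tangent x
    · exact J2_tangent x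

/-- orthonormality -/
lemma frame_orthonormal {μ : ℝ} (hμ : 0 < μ) {x : R4} (hx : x ∈ sphere (0 : R4) 1) (i j : Fin 3) :
    gB μ x (frame μ i x) (frame μ j x) = if i = j then 1 else 0 := by
  have hx := sphere_sq hx
  have hs : Real.sqrt μ ^ 2 = μ := Real.sq_sqrt hμ.le
  have hs0 : Real.sqrt μ ≠ 0 := (Real.sqrt_pos.2 hμ).ne'
  have h00 : inner ℝ (J0 x) (J0 x) = (1:ℝ) := by rw [inner4]; simp; linear_combination hx
  have h11 : inner ℝ (J1 x) (J1 x) = (1:ℝ) := by rw [inner4]; simp; linear_combination hx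
  have h22 : inner ℝ (J2 x) (J2 x) = (1:ℝ) := by rw [inner4]; simp; linear_combination hx
  have h01 : inner ℝ (J0 x) (J1 x) = (0:ℝ) := by rw [inner4]; simp; ring
  have h02 : inner ℝ (J0 x) (J2 x) = (0:ℝ) := by rw [inner4]; simp; ring
  have h12 : inner ℝ (J1 x) (J2 x) = (0:ℝ) := by rw [inner4]; simp; ring
  have h10 : inner ℝ (J1 x) (J0 x) = (0:ℝ) := by rw [real_inner_comm, h01]
  have h20 : inner ℝ (J2 x) (J0 x) = (0:ℝ) := by rw [real_inner_comm, h02]
  have h21 : inner ℝ (J2 x) (J1 x) = (0:ℝ) := by rw [real_inner_comm, h12]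
  have k00 : gB μ x (J0 x) (J0 x) = μ := by unfold gB; rw [h00]; ring
  have k11 : gB μ x (J1 x) (J1 x) = 1 := by unfold gB; rw [h11, h10]; ring
  have k22 : gB μ x (J2 x) (J2 x) = 1 := by unfold gB; rw [h22, h20]; ring
  have k01 : gB μ x (J0 x) (J1 x) = 0 := by unfold gB; rw [h01, h10]; ring
  have k02 : gB μ x (J0 x) (J2 x) = 0 := by unfold gB; rw [h02, h20]; ring
  have k12 : gB μ x (J1 x) (J2 x) = 0 := by unfold gB; rw [h12, h10]; ring
  have k10 : gB μ x (J1 x) (J0 x) = 0 := by rw [gB_comm, k01]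
  have k20 : gB μ x (J2 x) (J0 x) = 0 := by rw [gB_comm, k02]
  have k21 : gB μ x (J2 x) (J1 x) = 0 := by rw [gB_comm, k12]
  fin_cases i <;> fin_cases j <;>
    simp [frame, gB_smul_left, gB_smul_right, k00, k11, k22, k01, k02, k12, k10, k20, k21]
  field_simp
  linear_combination (-1) * hs

lemma frame_expand {μ : ℝ} (hμ : 0 < μ) {x : R4} (hx : x ∈ sphere (0 : R4) 1) {a : R4}
    (ha : inner ℝ a x = 0) :
    a = ∑ j, gB μ x a (frame μ j x) • frame μ j x := by
  have hx2 := sphere_sq hx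
  have hs : Real.sqrt μ ^ 2 = μ := Real.sq_sqrt hμ.le
  have hs0 : Real.sqrt μ ≠ 0 := (Real.sqrt_pos.2 hμ).ne'
  have h00 : inner ℝ (J0 x) (J0 x) = (1:ℝ) := by rw [inner4]; simp; linear_combination hx2
  have h10 : inner ℝ (J1 x) (J0 x) = (0:ℝ) := by rw [inner4]; simp; ring
  have h20 : inner ℝ (J2 x) (J0 x) = (0:ℝ) := by rw [inner4]; simp; ring
  conv_lhs => rw [expand hx ha]
  rw [Fin.sum_univ_three, frame_zero, frame_one, frame_two]
  have e0 : gB μ x a ((Real.sqrt μ)⁻¹ • J0 x) • (Real.sqrt μ)⁻¹ • J0 x = inner ℝ a (J0 x) • J0 x := by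
    rw [gB_smul_right, smul_smul]
    congr 1
    unfold gB
    rw [h00]
    field_simp
    linear_combination (- inner ℝ a (J0 x)) * hs
  have e1 : gB μ x a (J1 x) = inner ℝ a (J1 x) := by
    unfold gB; rw [h10]; ring
  have e2 : gB μ x a (J2 x) = inner ℝ a (J2 x) := by
    unfold gB; rw [h20]; ring
  rw [e0, e1, e2]

/-- norm in the frame -/
lemma gB_self_expand {μ : ℝ} (hμ : 0 < μ) {x : R4} (hx : x ∈ sphere (0 : R4) 1) {a : R4}
    (ha : inner ℝ a x = 0) :
    gB μ x a a = ∑ j, (gB μ x a (frame μ j x)) ^ 2 := by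
  conv_lhs => rw [frame_expand hμ hx ha]
  simp only [Fin.sum_univ_three, gB_add_left, gB_add_right, gB_smul_left, gB_smul_right,
    frame_orthonormal hμ hx]
  simp
  ring

lemma gB_expand {μ : ℝ} (hμ : 0 < μ) {x : R4} (hx : x ∈ sphere (0 : R4) 1) {a : R4}
    (ha : inner ℝ a x = 0) (b : R4) :
    gB μ x a b = ∑ j, (gB μ x a (frame μ j x)) * gB μ x (frame μ j x) b := by
  conv_lhs => rw [frame_expand hμ hx ha]
  simp only [Fin.sum_univ_three, gB_add_left, gB_smul_left]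

/-! ### existence of the Levi-Civita connection -/

lemma K_congr {μ : ℝ} {A B C C' : R4 → R4} (hA : IsVectorField A) (hB : IsVectorField B)
    {x : R4} (hx : x ∈ sphere (0 : R4) 1) (hC : DifferentiableAt ℝ C x)
    (hC' : DifferentiableAt ℝ C' x) (h : ∀ y ∈ sphere (0 : R4) 1, C y = C' y) :
    K μ A B C x = K μ A B C' x := by
  have dA := hA.differentiableAt hx
  have dB := hB.differentiableAt hx
  have tA := hA.tangent x hx
  have tB := hB.tangent x hx
  unfold K
  rw [fderiv_tangent_congr hx tA (gB_differentiableAt μ dB hC) (gB_differentiableAt μ dB hC')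
      (fun y hy => by rw [h y hy]),
    fderiv_tangent_congr hx tB (gB_differentiableAt μ dA hC) (gB_differentiableAt μ dA hC')
      (fun y hy => by rw [h y hy])]
  simp only [VectorField.lieBracket_eq, h x hx, fderiv_tangent_congr hx tA hC hC' h,
    fderiv_tangent_congr hx tB hC hC' h]

lemma K_smul {μ : ℝ} {A B C : R4 → R4} {f : R4 → ℝ} {x : R4} (hA : DifferentiableAt ℝ A x)
    (hB : DifferentiableAt ℝ B x) (hC : DifferentiableAt ℝ C x) (hf : DifferentiableAt ℝ f x) :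
    K μ A B (fun y => f y • C y) x = f x * K μ A B C x := by
  unfold K
  have e1 : ∀ (E : R4 → R4), DifferentiableAt ℝ E x → ∀ a,
      fderiv ℝ (fun y => gB μ y (E y) (f y • C y)) x a
      = f x * fderiv ℝ (fun y => gB μ y (E y) (C y)) x a + fderiv ℝ f x a * gB μ x (E x) (C x) := by
    intro E hE a
    have : (fun y => gB μ y (E y) (f y • C y)) = fun y => f y * gB μ y (E y) (C y) := by
      funext y; rw [gB_smul_right]
    rw [this, fderiv_fun_mul hf (gB_differentiableAt μ hE hC)]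
    simp
    ring
  have e2 : ∀ (E : R4 → R4), DifferentiableAt ℝ E x →
      VectorField.lieBracket ℝ E (fun y => f y • C y) x
        = fderiv ℝ f x (E x) • C x + f x • VectorField.lieBracket ℝ E C x := by
    intro E hE
    simp only [VectorField.lieBracket_eq]
    rw [fderiv_fun_smul hf hC]
    simp
    module
  rw [e1 B hB, e1 A hA, e2 A hA, e2 B hB, map_smul]
  simp only [gB_add_left, gB_smul_left, gB_smul_right, smul_eq_mul]
  rw [gB_comm μ x (C x) (B x), gB_comm μ x (C x) (A x)]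
  ring

lemma K_add {μ : ℝ} {A B C C' : R4 → R4} {x : R4} (hA : DifferentiableAt ℝ A x)
    (hB : DifferentiableAt ℝ B x) (hC : DifferentiableAt ℝ C x) (hC' : DifferentiableAt ℝ C' x) :
    K μ A B (fun y => C y + C' y) x = K μ A B C x + K μ A B C' x := by
  unfold K
  have e1 : ∀ (E : R4 → R4), DifferentiableAt ℝ E x → ∀ a,
      fderiv ℝ (fun y => gB μ y (E y) (C y + C' y)) x a
      = fderiv ℝ (fun y => gB μ y (E y) (C y)) x a
        + fderiv ℝ (fun y => gB μ y (E y) (C' y)) x a := by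
    intro E hE a
    have : (fun y => gB μ y (E y) (C y + C' y))
        = fun y => gB μ y (E y) (C y) + gB μ y (E y) (C' y) := by
      funext y; rw [gB_add_right]
    rw [this, fderiv_fun_add (gB_differentiableAt μ hE hC) (gB_differentiableAt μ hE hC')]
    simp
  have e2 : ∀ (E : R4 → R4), DifferentiableAt ℝ E x →
      VectorField.lieBracket ℝ E (fun y => C y + C' y) x
        = VectorField.lieBracket ℝ E C x + VectorField.lieBracket ℝ E C' x := by
    intro E hE
    simp only [VectorField.lieBracket_eq]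
    rw [fderiv_fun_add hC hC']
    simp
    abel
  rw [e1 B hB, e1 A hA, e2 A hA, e2 B hB, map_add]
  simp only [gB_add_left, gB_add_right]
  ring

lemma K_tensor {μ : ℝ} (hμ : 0 < μ) {A B C : R4 → R4} (hA : IsVectorField A)
    (hB : IsVectorField B) (hC : IsVectorField C) {x : R4} (hx : x ∈ sphere (0 : R4) 1) :
    K μ A B C x = ∑ j, gB μ x (C x) (frame μ j x) * K μ A B (frame μ j) x := by
  have dA := hA.differentiableAt hx
  have dB := hB.differentiableAt hx
  have dC := hC.differentiableAt hx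
  have dF : ∀ j, DifferentiableAt ℝ (frame μ j) x := fun j => (frame_vf μ j).differentiableAt hx
  have df : ∀ j, DifferentiableAt ℝ (fun y => gB μ y (C y) (frame μ j y)) x :=
    fun j => gB_differentiableAt μ dC (dF j)
  have ds : ∀ j, DifferentiableAt ℝ (fun y => gB μ y (C y) (frame μ j y) • frame μ j y) x :=
    fun j => (df j).smul (dF j)
  have h : ∀ y ∈ sphere (0 : R4) 1, C y =
      (gB μ y (C y) (frame μ 0 y) • frame μ 0 y + gB μ y (C y) (frame μ 1 y) • frame μ 1 y)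
      + gB μ y (C y) (frame μ 2 y) • frame μ 2 y := by
    intro y hy
    have := frame_expand hμ hy (hC.tangent y hy)
    rw [Fin.sum_univ_three] at this
    exact this
  rw [K_congr hA hB hx dC (((ds 0).fun_add (ds 1)).fun_add (ds 2)) h,
    K_add dA dB ((ds 0).fun_add (ds 1)) (ds 2), K_add dA dB (ds 0) (ds 1),
    K_smul dA dB (dF 0) (df 0), K_smul dA dB (dF 1) (df 1), K_smul dA dB (dF 2) (df 2),
    Fin.sum_univ_three]

lemma bracket_tangent {A B : R4 → R4} (hA : IsVectorField A) (hB : IsVectorField B) {x : R4}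
    (hx : x ∈ sphere (0 : R4) 1) : inner ℝ (VectorField.lieBracket ℝ A B x) x = 0 := by
  have dA := hA.differentiableAt hx
  have dB := hB.differentiableAt hx
  have key : ∀ (E E' : R4 → R4), IsVectorField E → IsVectorField E' →
      inner ℝ (fderiv ℝ E' x (E x)) x + inner ℝ (E' x) (E x) = (0:ℝ) := by
    intro E E' hE hE'
    have dE' := hE'.differentiableAt hx
    have h1 : fderiv ℝ (fun y => inner ℝ (E' y) y) x (E x) = fderiv ℝ (fun _ : R4 => (0:ℝ)) x (E x) :=
      fderiv_tangent_congr hx (hE.tangent x hx) (dE'.inner ℝ differentiableAt_fun_id)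
        (differentiableAt_const _) (fun y hy => hE'.tangent y hy)
    rw [fderiv_inner_apply ℝ dE' differentiableAt_fun_id] at h1
    simp at h1
    linarith [real_inner_comm (E x) (E' x), real_inner_comm x ((fderiv ℝ E' x) (E x)), h1]
  have h1 := key A B hA hB
  have h2 := key B A hB hA
  rw [VectorField.lieBracket_eq, inner_sub_left]
  have h3 := real_inner_comm (A x) (B x)
  linarith

/-- The connection given by the Koszul formula. -/
def nablaK (μ : ℝ) (A B : R4 → R4) (x : R4) : R4 :=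
  ∑ j, ((1 / 2 : ℝ) * K μ A B (frame μ j) x) • frame μ j x

lemma inner_sum_frame (μ : ℝ) (c : Fin 3 → ℝ) (x : R4) :
    inner ℝ (∑ j, c j • frame μ j x) x = (0:ℝ) := by
  rw [Fin.sum_univ_three, inner_add_left, inner_add_left, real_inner_smul_left,
    real_inner_smul_left, real_inner_smul_left, frame_zero, frame_one, frame_two,
    real_inner_smul_left, J0_tangent, J1_tangent, J2_tangent]
  ring

lemma gB_sum_left {μ : ℝ} (c : Fin 3 → ℝ) (x b : R4) :
    gB μ x (∑ j, c j • frame μ j x) b = ∑ j, c j * gB μ x (frame μ j x) b := by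
  simp only [Fin.sum_univ_three, gB_add_left, gB_smul_left]

lemma gB_nablaK {μ : ℝ} (hμ : 0 < μ) {A B C : R4 → R4} (hA : IsVectorField A)
    (hB : IsVectorField B) (hC : IsVectorField C) {x : R4} (hx : x ∈ sphere (0 : R4) 1) :
    gB μ x (nablaK μ A B x) (C x) = (1 / 2 : ℝ) * K μ A B C x := by
  unfold nablaK
  rw [gB_sum_left, K_tensor hμ hA hB hC hx, Finset.mul_sum]
  refine Finset.sum_congr rfl fun j _ => ?_
  rw [gB_comm μ x (frame μ j x)]
  ring

lemma K_antisymm (μ : ℝ) (A B C : R4 → R4) (x : R4) :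
    K μ A B C x - K μ B A C x = 2 * gB μ x (VectorField.lieBracket ℝ A B x) (C x) := by
  unfold K
  have h1 : (fun y => gB μ y (B y) (A y)) = fun y => gB μ y (A y) (B y) := by
    funext y; rw [gB_comm]
  have h2 : VectorField.lieBracket ℝ B A x = - VectorField.lieBracket ℝ A B x :=
    VectorField.lieBracket_swap
  have h3 : gB μ x (- VectorField.lieBracket ℝ A B x) (C x)
      = - gB μ x (VectorField.lieBracket ℝ A B x) (C x) := by
    rw [← neg_one_smul ℝ, gB_smul_left]; ring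
  rw [h1, h2, h3]
  ring

lemma K_symm (μ : ℝ) (A B C : R4 → R4) (x : R4) :
    K μ A B C x + K μ A C B x = 2 * fderiv ℝ (fun y => gB μ y (B y) (C y)) x (A x) := by
  unfold K
  have h1 : (fun y => gB μ y (C y) (B y)) = fun y => gB μ y (B y) (C y) := by
    funext y; rw [gB_comm]
  have h2 : VectorField.lieBracket ℝ C B x = - VectorField.lieBracket ℝ B C x :=
    VectorField.lieBracket_swap
  have h3 : gB μ x (- VectorField.lieBracket ℝ B C x) (A x)
      = - gB μ x (VectorField.lieBracket ℝ B C x) (A x) := by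
    rw [← neg_one_smul ℝ, gB_smul_left]; ring
  rw [h1, h2, h3]
  ring

theorem nablaK_isLeviCivita {μ : ℝ} (hμ : 0 < μ) : IsLeviCivita μ (nablaK μ) := by
  constructor
  · intro A B _ _ x _
    exact inner_sum_frame μ _ x
  · intro A B hA hB x hx
    have h1 := frame_expand hμ hx (bracket_tangent hA hB hx)
    rw [h1]
    unfold nablaK
    rw [← Finset.sum_sub_distrib]
    refine Finset.sum_congr rfl fun j _ => ?_
    rw [← sub_smul]
    congr 1
    have := K_antisymm μ A B (frame μ j) x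
    linarith
  · intro A B C hA hB hC x hx
    rw [gB_nablaK hμ hA hB hC hx, gB_comm μ x (B x), gB_nablaK hμ hA hC hB hx]
    have := K_symm μ A B C x
    linarith

/-! ### the connection in the frame -/

lemma fderiv_frame_metric {μ : ℝ} (hμ : 0 < μ) (i j : Fin 3) {x a : R4}
    (hx : x ∈ sphere (0 : R4) 1) (ha : inner ℝ a x = 0) :
    fderiv ℝ (fun y => gB μ y (frame μ i y) (frame μ j y)) x a = 0 := by
  rw [fderiv_tangent_congr hx ha
    (gB_differentiableAt μ ((frame_vf μ i).differentiableAt hx) ((frame_vf μ j).differentiableAt hx))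
    (differentiableAt_const (if i = j then (1:ℝ) else 0))
    (fun y hy => frame_orthonormal hμ hy i j)]
  simp

lemma lieBracket_frame (μ : ℝ) (i j : Fin 3) (x : R4) :
    VectorField.lieBracket ℝ (frame μ i) (frame μ j) x
      = frame μ j (frame μ i x) - frame μ i (frame μ j x) := by
  rw [VectorField.lieBracket_eq]
  simp only [← coe_frameL]
  rw [(frameL μ i).fderiv, (frameL μ j).fderiv]

lemma K_frame {μ : ℝ} (hμ : 0 < μ) (i j k : Fin 3) {x : R4} (hx : x ∈ sphere (0 : R4) 1) :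
    K μ (frame μ i) (frame μ j) (frame μ k) x
     = gB μ x (VectorField.lieBracket ℝ (frame μ i) (frame μ j) x) (frame μ k x)
    - gB μ x (VectorField.lieBracket ℝ (frame μ i) (frame μ k) x) (frame μ j x)
    - gB μ x (VectorField.lieBracket ℝ (frame μ j) (frame μ k) x) (frame μ i x) := by
  unfold K
  rw [fderiv_frame_metric hμ _ _ hx ((frame_vf μ i).tangent x hx),
    fderiv_frame_metric hμ _ _ hx ((frame_vf μ j).tangent x hx),
    fderiv_frame_metric hμ _ _ hx ((frame_vf μ k).tangent x hx)]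
  ring

lemma J01 (x : R4) : J0 (J1 x) = J2 x := by ext i; fin_cases i <;> simp
lemma J10 (x : R4) : J1 (J0 x) = - J2 x := by ext i; fin_cases i <;> simp
lemma J12 (x : R4) : J1 (J2 x) = J0 x := by ext i; fin_cases i <;> simp
lemma J21 (x : R4) : J2 (J1 x) = - J0 x := by ext i; fin_cases i <;> simp
lemma J20 (x : R4) : J2 (J0 x) = J1 x := by ext i; fin_cases i <;> simp
lemma J02 (x : R4) : J0 (J2 x) = - J1 x := by ext i; fin_cases i <;> simp
lemma J0_smul (c : ℝ) (x : R4) : J0 (c • x) = c • J0 x := map_smul J0L c x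
lemma J1_smul (c : ℝ) (x : R4) : J1 (c • x) = c • J1 x := map_smul J1L c x
lemma J2_smul (c : ℝ) (x : R4) : J2 (c • x) = c • J2 x := map_smul J2L c x

lemma bracket01 (μ : ℝ) (x : R4) : VectorField.lieBracket ℝ (frame μ 0) (frame μ 1) x
    = (-2 * (Real.sqrt μ)⁻¹) • frame μ 2 x := by
  rw [lieBracket_frame]
  simp only [frame_zero, frame_one, frame_two, J1_smul, J10, J01]
  module
lemma bracket12 {μ : ℝ} (hμ : 0 < μ) (x : R4) :
    VectorField.lieBracket ℝ (frame μ 1) (frame μ 2) x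
    = (-2 * (Real.sqrt μ)) • frame μ 0 x := by
  have hs0 : Real.sqrt μ ≠ 0 := (Real.sqrt_pos.2 hμ).ne'
  rw [lieBracket_frame]
  simp only [frame_zero, frame_one, frame_two, J12, J21]
  rw [smul_smul, mul_assoc, mul_inv_cancel₀ hs0]
  module
lemma bracket20 (μ : ℝ) (x : R4) : VectorField.lieBracket ℝ (frame μ 2) (frame μ 0) x
    = (-2 * (Real.sqrt μ)⁻¹) • frame μ 1 x := by
  rw [lieBracket_frame]
  simp only [frame_zero, frame_one, frame_two, J2_smul, J20, J02]
  module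
lemma bracket10 (μ : ℝ) (x : R4) : VectorField.lieBracket ℝ (frame μ 1) (frame μ 0) x
    = (2 * (Real.sqrt μ)⁻¹) • frame μ 2 x := by
  rw [VectorField.lieBracket_swap]
  simp only [bracket01]
  module
lemma bracket21 {μ : ℝ} (hμ : 0 < μ) (x : R4) :
    VectorField.lieBracket ℝ (frame μ 2) (frame μ 1) x
    = (2 * (Real.sqrt μ)) • frame μ 0 x := by
  rw [VectorField.lieBracket_swap]
  simp only [bracket12 hμ]
  module
lemma bracket02 (μ : ℝ) (x : R4) : VectorField.lieBracket ℝ (frame μ 0) (frame μ 2) x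
    = (2 * (Real.sqrt μ)⁻¹) • frame μ 1 x := by
  rw [VectorField.lieBracket_swap]
  simp only [bracket20]
  module
lemma bracketii (μ : ℝ) (i : Fin 3) (x : R4) :
    VectorField.lieBracket ℝ (frame μ i) (frame μ i) x = 0 := by
  simp

/-- connection coefficients: `Γ i j k = g(∇_{e_i} e_j, e_k)` -/
def Gam (μ : ℝ) : Fin 3 → Fin 3 → Fin 3 → ℝ :=
  ![![![0, 0, 0], ![0, 0, Real.sqrt μ - 2 * (Real.sqrt μ)⁻¹],
      ![0, -(Real.sqrt μ - 2 * (Real.sqrt μ)⁻¹), 0]],
    ![![0, 0, Real.sqrt μ], ![0, 0, 0], ![-Real.sqrt μ, 0, 0]],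
    ![![0, -Real.sqrt μ, 0], ![Real.sqrt μ, 0, 0], ![0, 0, 0]]]

lemma gB_neg_left (μ : ℝ) (x a b : R4) : gB μ x (-a) b = - gB μ x a b := by
  rw [← neg_one_smul ℝ a, gB_smul_left]; ring

lemma K_frame_eq {μ : ℝ} (hμ : 0 < μ) (i j k : Fin 3) {x : R4} (hx : x ∈ sphere (0 : R4) 1) :
    K μ (frame μ i) (frame μ j) (frame μ k) x = 2 * Gam μ i j k := by
  rw [K_frame hμ i j k hx]
  have z : ∀ a : R4, gB μ x 0 a = 0 := by intro a; unfold gB; simp
  fin_cases i <;> fin_cases j <;> fin_cases k <;>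
    simp [bracket01, bracket12 hμ, bracket20, bracket10, bracket21 hμ, bracket02, bracketii,
      gB_smul_left, gB_neg_left, frame_orthonormal hμ hx, Gam, z] <;> ring

lemma gB_D_frame {μ : ℝ} (hμ : 0 < μ) {D : (R4 → R4) → (R4 → R4) → (R4 → R4)}
    (hD : IsLeviCivita μ D) (i j k : Fin 3) {x : R4} (hx : x ∈ sphere (0 : R4) 1) :
    gB μ x (D (frame μ i) (frame μ j) x) (frame μ k x) = Gam μ i j k := by
  have h := hD.koszul (frame_vf μ i) (frame_vf μ j) (frame_vf μ k) hx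
  rw [K_frame_eq hμ i j k hx] at h
  linarith

/-- the covariant derivative of a field in the frame -/
lemma gB_D {μ : ℝ} (hμ : 0 < μ) {D : (R4 → R4) → (R4 → R4) → (R4 → R4)}
    (hD : IsLeviCivita μ D) {V : R4 → R4} (hV : IsVectorField V) (i j : Fin 3) {x : R4}
    (hx : x ∈ sphere (0 : R4) 1) :
    gB μ x (D (frame μ i) V x) (frame μ j x)
      = fderiv ℝ (fun y => gB μ y (V y) (frame μ j y)) x (frame μ i x)
        - ∑ k, gB μ x (V x) (frame μ k x) * Gam μ i j k := by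
  have h := hD.metric (frame μ i) V (frame μ j) (frame_vf μ i) hV (frame_vf μ j) x hx
  rw [h]
  have h2 : gB μ x (V x) (D (frame μ i) (frame μ j) x)
      = ∑ k, gB μ x (V x) (frame μ k x) * Gam μ i j k := by
    rw [gB_expand hμ hx (hV.tangent x hx)]
    refine Finset.sum_congr rfl fun k _ => ?_
    rw [gB_comm μ x (frame μ k x), gB_D_frame hμ hD i j k hx]
  rw [h2]
  ring

/-! ### the competitor -/

def v0 (x : R4) : ℝ := x 0 ^ 2 + x 1 ^ 2 - x 2 ^ 2 - x 3 ^ 2
def v1 (x : R4) : ℝ := 2 * (x 1 * x 2 + x 0 * x 3)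
def v2 (x : R4) : ℝ := 2 * (x 1 * x 3 - x 0 * x 2)

def W (μ : ℝ) (x : R4) : R4 :=
  v0 x • frame μ 0 x + v1 x • frame μ 1 x + v2 x • frame μ 2 x

def P (i : Fin 4) : R4 →L[ℝ] ℝ := EuclideanSpace.proj i
lemma P_apply (i : Fin 4) (x : R4) : P i x = x i := rfl
lemma hasP (i : Fin 4) (x : R4) : HasFDerivAt (fun y : R4 => y i) (P i) x := (P i).hasFDerivAt

lemma contDiff_coord (i : Fin 4) : ContDiff ℝ ∞ (fun y : R4 => y i) := (P i).contDiff

lemma contDiff_v0 : ContDiff ℝ ∞ v0 :=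
  ((((contDiff_coord 0).pow 2).add ((contDiff_coord 1).pow 2)).sub
    ((contDiff_coord 2).pow 2)).sub ((contDiff_coord 3).pow 2)
lemma contDiff_v1 : ContDiff ℝ ∞ v1 :=
  contDiff_const.mul (((contDiff_coord 1).mul (contDiff_coord 2)).add
    ((contDiff_coord 0).mul (contDiff_coord 3)))
lemma contDiff_v2 : ContDiff ℝ ∞ v2 :=
  contDiff_const.mul (((contDiff_coord 1).mul (contDiff_coord 3)).sub
    ((contDiff_coord 0).mul (contDiff_coord 2)))

lemma fderiv_v0 (x a : R4) : fderiv ℝ v0 x a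
    = 2 * (x 0 * a 0 + x 1 * a 1 - x 2 * a 2 - x 3 * a 3) := by
  have h : HasFDerivAt v0 _ x :=
    ((((hasP 0 x).pow 2).add ((hasP 1 x).pow 2)).sub ((hasP 2 x).pow 2)).sub ((hasP 3 x).pow 2)
  rw [h.fderiv]
  simp [P_apply]
  ring
lemma fderiv_v1 (x a : R4) : fderiv ℝ v1 x a
    = 2 * (x 1 * a 2 + x 2 * a 1 + x 0 * a 3 + x 3 * a 0) := by
  have h : HasFDerivAt v1 _ x :=
    (((hasP 1 x).mul (hasP 2 x)).add ((hasP 0 x).mul (hasP 3 x))).const_mul 2
  rw [h.fderiv]
  simp [P_apply]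
  ring
lemma fderiv_v2 (x a : R4) : fderiv ℝ v2 x a
    = 2 * (x 1 * a 3 + x 3 * a 1 - x 0 * a 2 - x 2 * a 0) := by
  have h : HasFDerivAt v2 _ x :=
    (((hasP 1 x).mul (hasP 3 x)).sub ((hasP 0 x).mul (hasP 2 x))).const_mul 2
  rw [h.fderiv]
  simp [P_apply]
  ring

lemma W_vf (μ : ℝ) : IsVectorField (W μ) := by
  constructor
  · have h : ∀ i, ContDiff ℝ ∞ (frame μ i) := by
      intro i; rw [← coe_frameL]; exact (frameL μ i).contDiff
    exact (((contDiff_v0.smul (h 0)).add (contDiff_v1.smul (h 1))).add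
      (contDiff_v2.smul (h 2))).contDiffOn
  · intro x hx
    unfold W
    rw [inner_add_left, inner_add_left, real_inner_smul_left, real_inner_smul_left,
      real_inner_smul_left, (frame_vf μ 0).tangent x hx, (frame_vf μ 1).tangent x hx,
      (frame_vf μ 2).tangent x hx]
    ring

def vv : Fin 3 → R4 → ℝ := ![v0, v1, v2]

lemma gB_W {μ : ℝ} (hμ : 0 < μ) {x : R4} (hx : x ∈ sphere (0 : R4) 1) (j : Fin 3) :
    gB μ x (W μ x) (frame μ j x) = vv j x := by
  unfold W
  rw [gB_add_left, gB_add_left, gB_smul_left, gB_smul_left, gB_smul_left,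
    frame_orthonormal hμ hx, frame_orthonormal hμ hx, frame_orthonormal hμ hx]
  fin_cases j <;> simp [vv]

lemma vv_sq {x : R4} (hx : x ∈ sphere (0 : R4) 1) : v0 x ^ 2 + v1 x ^ 2 + v2 x ^ 2 = 1 := by
  have h := sphere_sq hx
  have : v0 x ^ 2 + v1 x ^ 2 + v2 x ^ 2 = (x 0 ^ 2 + x 1 ^ 2 + x 2 ^ 2 + x 3 ^ 2) ^ 2 := by
    unfold v0 v1 v2; ring
  rw [this, h]; norm_num

lemma W_unit {μ : ℝ} (hμ : 0 < μ) : IsUnitField μ (W μ) := by
  refine ⟨W_vf μ, fun x hx => ?_⟩
  rw [gB_self_expand hμ hx ((W_vf μ).tangent x hx)]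
  simp only [gB_W hμ hx]
  rw [Fin.sum_univ_three]
  exact vv_sq hx

lemma gradSq_eq {μ : ℝ} (hμ : 0 < μ) {D : (R4 → R4) → (R4 → R4) → (R4 → R4)}
    (hD : IsLeviCivita μ D) {V : R4 → R4} (hV : IsVectorField V) {x : R4}
    (hx : x ∈ sphere (0 : R4) 1) :
    gradSq μ D V x = ∑ i, ∑ j, (fderiv ℝ (fun y => gB μ y (V y) (frame μ j y)) x (frame μ i x)
        - ∑ k, gB μ x (V x) (frame μ k x) * Gam μ i j k) ^ 2 := by
  unfold gradSq
  refine Finset.sum_congr rfl fun i _ => ?_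
  rw [gB_self_expand hμ hx (hD.tangent _ _ (frame_vf μ i) hV x hx)]
  refine Finset.sum_congr rfl fun j _ => ?_
  rw [gB_D hμ hD hV i j hx]

lemma gradSq_W {μ : ℝ} (hμ : 0 < μ) {D : (R4 → R4) → (R4 → R4) → (R4 → R4)}
    (hD : IsLeviCivita μ D) {x : R4} (hx : x ∈ sphere (0 : R4) 1) :
    gradSq μ D (W μ) x = μ * (1 - v0 x ^ 2) + (2 - Real.sqrt μ) ^ 2 * (1 + v0 x ^ 2) := by
  rw [gradSq_eq hμ hD (W_vf μ) hx]
  have hfd : ∀ i j, fderiv ℝ (fun y => gB μ y (W μ y) (frame μ j y)) x (frame μ i x)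
      = fderiv ℝ (vv j) x (frame μ i x) := by
    intro i j
    refine fderiv_tangent_congr hx ((frame_vf μ i).tangent x hx)
      (gB_differentiableAt μ ((W_vf μ).differentiableAt hx) ((frame_vf μ j).differentiableAt hx))
      ?_ (fun y hy => gB_W hμ hy j)
    fin_cases j
    · exact (contDiff_v0.differentiable (by simp)) x
    · exact (contDiff_v1.differentiable (by simp)) x
    · exact (contDiff_v2.differentiable (by simp)) x
  simp only [hfd, gB_W hμ hx]
  have hsq := sphere_sq hx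
  have hs : Real.sqrt μ ^ 2 = μ := Real.sq_sqrt hμ.le
  have hs0 : Real.sqrt μ ≠ 0 := (Real.sqrt_pos.2 hμ).ne'
  set s := Real.sqrt μ with hsdef
  -- the derivatives of the `v`'s
  have d00 : fderiv ℝ v0 x (J0 x) = 0 := by rw [fderiv_v0]; simp; ring
  have d01 : fderiv ℝ v1 x (J0 x) = - 2 * v2 x := by rw [fderiv_v1]; simp [v2]; ring
  have d02 : fderiv ℝ v2 x (J0 x) = 2 * v1 x := by rw [fderiv_v2]; simp [v1]; ring
  have d10 : fderiv ℝ v0 x (J1 x) = 2 * v2 x := by rw [fderiv_v0]; simp [v2]; ring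
  have d11 : fderiv ℝ v1 x (J1 x) = 0 := by rw [fderiv_v1]; simp; ring
  have d12 : fderiv ℝ v2 x (J1 x) = - 2 * v0 x := by rw [fderiv_v2]; simp [v0]; ring
  have d20 : fderiv ℝ v0 x (J2 x) = - 2 * v1 x := by rw [fderiv_v0]; simp [v1]; ring
  have d21 : fderiv ℝ v1 x (J2 x) = 2 * v0 x := by rw [fderiv_v1]; simp [v0]; ring
  have d22 : fderiv ℝ v2 x (J2 x) = 0 := by rw [fderiv_v2]; simp; ring
  have hv := vv_sq hx
  simp only [Fin.sum_univ_three, frame_zero, frame_one, frame_two, map_smul, smul_eq_mul, vv, Gam,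
    ← hsdef]
  simp [d00, d01, d02, d10, d11, d12, d20, d21, d22]
  generalize v0 x = p0 at *
  generalize v1 x = p1 at *
  generalize v2 x = p2 at *
  rw [← hs]
  field_simp
  linear_combination (s ^ 4 + s ^ 2 * (2 - s) ^ 2) * hv

lemma X_vf (a1 a2 : ℝ) : IsVectorField (X a1 a2) := by
  constructor
  · have h1 : ContDiff ℝ ∞ J1 := by rw [← coe_J1L]; exact J1L.contDiff
    have h2 : ContDiff ℝ ∞ J2 := by rw [← coe_J2L]; exact J2L.contDiff
    exact ((h1.const_smul a1).add (h2.const_smul a2)).contDiffOn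
  · intro x _
    unfold X
    rw [inner_add_left, real_inner_smul_left, real_inner_smul_left, J1_tangent, J2_tangent]
    ring

lemma gB_X {μ : ℝ} (hμ : 0 < μ) (a1 a2 : ℝ) {x : R4} (hx : x ∈ sphere (0 : R4) 1) (j : Fin 3) :
    gB μ x (X a1 a2 x) (frame μ j x) = (![0, a1, a2] : Fin 3 → ℝ) j := by
  unfold X
  rw [← frame_one μ, ← frame_two μ, gB_add_left, gB_smul_left, gB_smul_left,
    frame_orthonormal hμ hx, frame_orthonormal hμ hx]
  fin_cases j <;> simp

lemma X_unit {μ : ℝ} (hμ : 0 < μ) {a1 a2 : ℝ} (h : a1 ^ 2 + a2 ^ 2 = 1) :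
    IsUnitField μ (X a1 a2) := by
  refine ⟨X_vf a1 a2, fun x hx => ?_⟩
  rw [gB_self_expand hμ hx ((X_vf a1 a2).tangent x hx)]
  simp only [gB_X hμ a1 a2 hx]
  rw [Fin.sum_univ_three]
  simpa using h

lemma gradSq_X {μ : ℝ} (hμ : 0 < μ) {D : (R4 → R4) → (R4 → R4) → (R4 → R4)}
    (hD : IsLeviCivita μ D) {a1 a2 : ℝ} (h : a1 ^ 2 + a2 ^ 2 = 1)
    {x : R4} (hx : x ∈ sphere (0 : R4) 1) :
    gradSq μ D (X a1 a2) x = 2 * (μ + 2 * ((1 - μ) / μ)) := by
  rw [gradSq_eq hμ hD (X_vf a1 a2) hx]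
  have hfd : ∀ i j, fderiv ℝ (fun y => gB μ y (X a1 a2 y) (frame μ j y)) x (frame μ i x)
      = 0 := by
    intro i j
    rw [fderiv_tangent_congr hx ((frame_vf μ i).tangent x hx)
      (gB_differentiableAt μ ((X_vf a1 a2).differentiableAt hx)
        ((frame_vf μ j).differentiableAt hx))
      (differentiableAt_const ((![0, a1, a2] : Fin 3 → ℝ) j))
      (fun y hy => gB_X hμ a1 a2 hy j)]
    simp
  simp only [hfd, gB_X hμ a1 a2 hx]
  have hs : Real.sqrt μ ^ 2 = μ := Real.sq_sqrt hμ.le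
  have hs0 : Real.sqrt μ ≠ 0 := (Real.sqrt_pos.2 hμ).ne'
  set s := Real.sqrt μ with hsdef
  simp only [Fin.sum_univ_three, Gam, ← hsdef]
  simp
  rw [← hs]
  field_simp
  linear_combination (s ^ 4 + (s ^ 2 - 2) ^ 2) * h

/-! ### the measure on the sphere -/

/-- a linear isometry acts on the unit sphere -/
def sphereEquiv (T : R4 ≃ₗᵢ[ℝ] R4) : sphere (0 : R4) 1 ≃ᵐ sphere (0 : R4) 1 where
  toFun x := ⟨T x, by simp⟩
  invFun x := ⟨T.symm x, by simp⟩
  left_inv x := by ext1; simp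
  right_inv x := by ext1; simp
  measurable_toFun := by
    apply Continuous.measurable
    exact (T.continuous.comp continuous_subtype_val).subtype_mk _
  measurable_invFun := by
    apply Continuous.measurable
    exact (T.symm.continuous.comp continuous_subtype_val).subtype_mk _

lemma sphereEquiv_preserving (T : R4 ≃ₗᵢ[ℝ] R4) :
    MeasurePreserving (sphereEquiv T) (volume : Measure R4).toSphere
      (volume : Measure R4).toSphere := by
  refine ⟨(sphereEquiv T).measurable, ?_⟩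
  ext s hs
  rw [Measure.map_apply (sphereEquiv T).measurable hs,
    Measure.toSphere_apply' _ hs, Measure.toSphere_apply' _ ((sphereEquiv T).measurable hs)]
  congr 1
  have h1 : (Set.Ioo (0:ℝ) 1 • (Subtype.val '' (sphereEquiv T ⁻¹' s)) : Set R4)
      = T ⁻¹' (Set.Ioo (0:ℝ) 1 • (Subtype.val '' s) : Set R4) := by
    ext z
    simp only [Set.mem_smul, Set.mem_image, Set.mem_preimage]
    constructor
    · rintro ⟨r, hr, y, ⟨w, hw, rfl⟩, rfl⟩
      exact ⟨r, hr, T w, ⟨sphereEquiv T w, hw, rfl⟩, by simp⟩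
    · rintro ⟨r, hr, y, ⟨w, hw, rfl⟩, h⟩
      refine ⟨r, hr, T.symm w, ⟨(sphereEquiv T).symm w, by simpa using hw, rfl⟩, ?_⟩
      rw [← map_smul, h]
      simp
  rw [h1]
  exact (T.measurePreserving).measure_preimage_equiv (f := T.toHomeomorph.toMeasurableEquiv) _

def T1fun (x : R4) : R4 :=
  (Real.sqrt 2)⁻¹ • !₂[x 0 + x 3, x 1 + x 2, x 1 - x 2, x 0 - x 3]
def T2fun (x : R4) : R4 :=
  (Real.sqrt 2)⁻¹ • !₂[x 0 + x 2, x 1 + x 3, x 2 - x 0, x 1 - x 3]

lemma sqrt2_inv_sq : ((Real.sqrt 2)⁻¹) ^ 2 = (1 / 2 : ℝ) := by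
  rw [inv_pow, Real.sq_sqrt (by norm_num)]; norm_num

lemma norm_eq_of_sq {x y : R4}
    (h : x 0 ^ 2 + x 1 ^ 2 + x 2 ^ 2 + x 3 ^ 2 = y 0 ^ 2 + y 1 ^ 2 + y 2 ^ 2 + y 3 ^ 2) :
    ‖x‖ = ‖y‖ := by
  have h1 : ‖x‖ ^ 2 = ‖y‖ ^ 2 := by
    rw [EuclideanSpace.real_norm_sq_eq, EuclideanSpace.real_norm_sq_eq, Fin.sum_univ_four,
      Fin.sum_univ_four, h]
  exact (pow_left_inj₀ (norm_nonneg _) (norm_nonneg _) (by norm_num)).1 h1

def T1i : R4 →ₗᵢ[ℝ] R4 where
  toFun := T1fun
  map_add' := by intro x y; ext i; fin_cases i <;> simp [T1fun] <;> ring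
  map_smul' := by intro c x; ext i; fin_cases i <;> simp [T1fun] <;> ring
  norm_map' := by
    intro x
    apply norm_eq_of_sq
    have h := sqrt2_inv_sq
    simp [T1fun, -inv_pow]
    linear_combination (2 * (x 0 ^ 2 + x 1 ^ 2 + x 2 ^ 2 + x 3 ^ 2)) * h

def T2i : R4 →ₗᵢ[ℝ] R4 where
  toFun := T2fun
  map_add' := by intro x y; ext i; fin_cases i <;> simp [T2fun] <;> ring
  map_smul' := by intro c x; ext i; fin_cases i <;> simp [T2fun] <;> ring
  norm_map' := by
    intro x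
    apply norm_eq_of_sq
    have h := sqrt2_inv_sq
    simp [T2fun, -inv_pow]
    linear_combination (2 * (x 0 ^ 2 + x 1 ^ 2 + x 2 ^ 2 + x 3 ^ 2)) * h

def T1 : R4 ≃ₗᵢ[ℝ] R4 := T1i.toLinearIsometryEquiv rfl
def T2 : R4 ≃ₗᵢ[ℝ] R4 := T2i.toLinearIsometryEquiv rfl

lemma T1_apply (x : R4) : T1 x = T1fun x := rfl
lemma T2_apply (x : R4) : T2 x = T2fun x := rfl

lemma v1_T1 (x : R4) : v1 (T1 x) = v0 x := by
  rw [T1_apply]
  have h := sqrt2_inv_sq
  simp [v1, v0, T1fun, -inv_pow]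
  linear_combination (2 * (x 0 ^ 2 + x 1 ^ 2 - x 2 ^ 2 - x 3 ^ 2)) * h
lemma v2_T2 (x : R4) : v2 (T2 x) = v0 x := by
  rw [T2_apply]
  have h := sqrt2_inv_sq
  simp [v2, v0, T2fun, -inv_pow]
  linear_combination (2 * (x 0 ^ 2 + x 1 ^ 2 - x 2 ^ 2 - x 3 ^ 2)) * h

abbrev sig : Measure (sphere (0 : R4) 1) := (volume : Measure R4).toSphere

lemma integrable_of_continuous {f : R4 → ℝ} (hf : Continuous f) :
    Integrable (fun x : sphere (0 : R4) 1 => f x) sig := by
  have : Continuous (fun x : sphere (0 : R4) 1 => f x) := hf.comp continuous_subtype_val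
  exact this.integrable_of_hasCompactSupport (HasCompactSupport.of_compactSpace _)

lemma int_v1 : ∫ x : sphere (0 : R4) 1, v1 x ^ 2 ∂sig = ∫ x : sphere (0 : R4) 1, v0 x ^ 2 ∂sig := by
  have h := (sphereEquiv_preserving T1).integral_comp' (fun x : sphere (0 : R4) 1 => v1 x ^ 2)
  rw [← h]
  refine integral_congr_ae (Filter.Eventually.of_forall fun x => ?_)
  show v1 (T1 x) ^ 2 = v0 x ^ 2
  rw [v1_T1]
lemma int_v2 : ∫ x : sphere (0 : R4) 1, v2 x ^ 2 ∂sig = ∫ x : sphere (0 : R4) 1, v0 x ^ 2 ∂sig := by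
  have h := (sphereEquiv_preserving T2).integral_comp' (fun x : sphere (0 : R4) 1 => v2 x ^ 2)
  rw [← h]
  refine integral_congr_ae (Filter.Eventually.of_forall fun x => ?_)
  show v2 (T2 x) ^ 2 = v0 x ^ 2
  rw [v2_T2]

lemma int_v0 : ∫ x : sphere (0 : R4) 1, v0 x ^ 2 ∂sig = sig.real Set.univ / 3 := by
  have i0 : Integrable (fun x : sphere (0 : R4) 1 => v0 x ^ 2) sig :=
    integrable_of_continuous (contDiff_v0.continuous.pow 2)
  have i1 : Integrable (fun x : sphere (0 : R4) 1 => v1 x ^ 2) sig :=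
    integrable_of_continuous (contDiff_v1.continuous.pow 2)
  have i2 : Integrable (fun x : sphere (0 : R4) 1 => v2 x ^ 2) sig :=
    integrable_of_continuous (contDiff_v2.continuous.pow 2)
  have i01 : Integrable (fun x : sphere (0 : R4) 1 => v0 x ^ 2 + v1 x ^ 2) sig := i0.add i1
  have h : ∫ x : sphere (0 : R4) 1, (v0 x ^ 2 + v1 x ^ 2 + v2 x ^ 2) ∂sig = sig.real Set.univ := by
    have : ∀ x : sphere (0 : R4) 1, v0 x ^ 2 + v1 x ^ 2 + v2 x ^ 2 = 1 := fun x => vv_sq x.2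
    simp [this]
  rw [integral_add i01 i2, integral_add i0 i1, int_v1, int_v2] at h
  linarith

/-! ### energies -/

lemma volB_pos {μ : ℝ} (hμ : 0 < μ) : 0 < volB μ := by
  have h : 0 < (volume : Measure R4).toSphere.real Set.univ := by
    rw [measureReal_def]
    apply ENNReal.toReal_pos
    · rw [Ne, Measure.measure_univ_eq_zero]
      exact Measure.toSphere_ne_zero _
    · exact measure_ne_top _ _
  exact mul_pos (Real.sqrt_pos.2 hμ) h

lemma energy_W {μ : ℝ} (hμ : 0 < μ) {D : (R4 → R4) → (R4 → R4) → (R4 → R4)}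
    (hD : IsLeviCivita μ D) :
    energy μ D (W μ) = (3 / 2 + 1 / 2 * (2 / 3 * μ + 4 / 3 * (2 - Real.sqrt μ) ^ 2)) * volB μ := by
  have i0 : Integrable (fun x : sphere (0 : R4) 1 => v0 x ^ 2) sig :=
    integrable_of_continuous (contDiff_v0.continuous.pow 2)
  have h : ∫ x : sphere (0 : R4) 1, gradSq μ D (W μ) x ∂((volume : Measure R4).toSphere)
      = (2 / 3 * μ + 4 / 3 * (2 - Real.sqrt μ) ^ 2) * sig.real Set.univ := by
    have e : ∀ x : sphere (0 : R4) 1, gradSq μ D (W μ) x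
        = (μ + (2 - Real.sqrt μ) ^ 2) + ((2 - Real.sqrt μ) ^ 2 - μ) * v0 x ^ 2 := by
      intro x
      rw [gradSq_W hμ hD x.2]; ring
    simp only [e]
    rw [integral_add (integrable_const _) (i0.const_mul _), integral_const_mul, int_v0]
    simp
    ring
  unfold energy
  rw [h]
  unfold volB
  ring

lemma energy_X {μ : ℝ} (hμ : 0 < μ) {D : (R4 → R4) → (R4 → R4) → (R4 → R4)}
    (hD : IsLeviCivita μ D) {a1 a2 : ℝ} (ha : a1 ^ 2 + a2 ^ 2 = 1) :
    energy μ D (X a1 a2) = (3 / 2 + μ + 2 * ((1 - μ) / μ)) * volB μ := by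
  have h : ∫ x : sphere (0 : R4) 1, gradSq μ D (X a1 a2) x ∂((volume : Measure R4).toSphere)
      = (2 * (μ + 2 * ((1 - μ) / μ))) * sig.real Set.univ := by
    have e : ∀ x : sphere (0 : R4) 1, gradSq μ D (X a1 a2) x = 2 * (μ + 2 * ((1 - μ) / μ)) := by
      intro x
      rw [gradSq_X hμ hD ha x.2]
    simp only [e]
    simp
    ring
  unfold energy
  rw [h]
  unfold volB
  ring

lemma ineq {μ : ℝ} (h : ((3 + Real.sqrt 57) / 8) ^ 2 < μ) :
    3 / 2 + 1 / 2 * (2 / 3 * μ + 4 / 3 * (2 - Real.sqrt μ) ^ 2)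
      < 3 / 2 + μ + 2 * ((1 - μ) / μ) := by
  have h57 : (0:ℝ) ≤ Real.sqrt 57 := Real.sqrt_nonneg _
  have h57' : Real.sqrt 57 ^ 2 = 57 := Real.sq_sqrt (by norm_num)
  have h57'' : 7 < Real.sqrt 57 := by
    rw [show (7:ℝ) = Real.sqrt (7 ^ 2) by rw [Real.sqrt_sq (by norm_num)]]
    exact Real.sqrt_lt_sqrt (by norm_num) (by norm_num)
  have hμ : 0 < μ := lt_of_le_of_lt (by positivity) h
  set s := Real.sqrt μ with hs
  have hs2 : s ^ 2 = μ := Real.sq_sqrt hμ.le
  have hsgt : (3 + Real.sqrt 57) / 8 < s := by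
    rw [hs]
    exact Real.lt_sqrt_of_sq_lt h
  have hs0 : 0 < s := by linarith
  have hs1 : 1 < s := by linarith
  rw [← hs2]
  have key : 0 < (s - 1) * (4 * s ^ 2 - 3 * s - 3) := by
    apply mul_pos (by linarith)
    have : 4 * s ^ 2 - 3 * s - 3
        = 4 * (s - (3 + Real.sqrt 57) / 8) * (s - (3 - Real.sqrt 57) / 8) := by
      linear_combination ((1:ℝ) / 16) * h57'
    rw [this]
    apply mul_pos (by linarith)
    linarith
  have e : 3 / 2 + s ^ 2 + 2 * ((1 - s ^ 2) / s ^ 2)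
      - (3 / 2 + 1 / 2 * (2 / 3 * s ^ 2 + 4 / 3 * (2 - s) ^ 2))
      = (2 / 3) * ((s - 1) * (4 * s ^ 2 - 3 * s - 3)) / s ^ 2 := by
    field_simp
    ring
  have : 0 < (2 / 3) * ((s - 1) * (4 * s ^ 2 - 3 * s - 3)) / s ^ 2 := by positivity
  linarith

/-- **Negative answer to Q1.** The inequality `E(V) ≥ (3/2 + μ + 2 (1 - μ)/μ) vol(S³, g_μ)` fails
for some `μ > 1` and some unit vector field; in fact it fails for every
`μ > ((3 + √57) / 8) ^ 2 = 1.739...`. The Levi-Civita connection exists for every `μ > 0`, and the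
right-hand side is the energy of every field `a1 E_1 + a2 E_2` with `a1 ^ 2 + a2 ^ 2 = 1`. -/
theorem result :
    (¬ ∀ μ : ℝ, 1 < μ → ∀ D, IsLeviCivita μ D → ∀ V, IsUnitField μ V →
      (3 / 2 + μ + 2 * ((1 - μ) / μ)) * volB μ ≤ energy μ D V) ∧
    (∀ μ : ℝ, 0 < μ → ∃ D, IsLeviCivita μ D) ∧
    (∀ μ : ℝ, ((3 + Real.sqrt 57) / 8) ^ 2 < μ →
      ∃ V : R4 → R4, IsUnitField μ V ∧ ∀ D, IsLeviCivita μ D →
        energy μ D V < (3 / 2 + μ + 2 * ((1 - μ) / μ)) * volB μ ∧
        ∀ a1 a2 : ℝ, a1 ^ 2 + a2 ^ 2 = 1 →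
          IsUnitField μ (X a1 a2) ∧
          energy μ D (X a1 a2) = (3 / 2 + μ + 2 * ((1 - μ) / μ)) * volB μ) := by
  have main : ∀ μ : ℝ, ((3 + Real.sqrt 57) / 8) ^ 2 < μ →
      ∃ V : R4 → R4, IsUnitField μ V ∧ ∀ D, IsLeviCivita μ D →
        energy μ D V < (3 / 2 + μ + 2 * ((1 - μ) / μ)) * volB μ ∧
        ∀ a1 a2 : ℝ, a1 ^ 2 + a2 ^ 2 = 1 →
          IsUnitField μ (X a1 a2) ∧
          energy μ D (X a1 a2) = (3 / 2 + μ + 2 * ((1 - μ) / μ)) * volB μ := by
    intro μ h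
    have hμ : 0 < μ := lt_of_le_of_lt (by positivity) h
    refine ⟨W μ, W_unit hμ, fun D hD => ⟨?_, fun a1 a2 ha =>
      ⟨X_unit hμ ha, energy_X hμ hD ha⟩⟩⟩
    rw [energy_W hμ hD]
    exact mul_lt_mul_of_pos_right (ineq h) (volB_pos hμ)
  refine ⟨fun hQ => ?_, fun μ hμ => ⟨nablaK μ, nablaK_isLeviCivita hμ⟩, main⟩
  have h4 : ((3 + Real.sqrt 57) / 8) ^ 2 < (4 : ℝ) := by
    have h57 : (0:ℝ) ≤ Real.sqrt 57 := Real.sqrt_nonneg _
    have h57' : Real.sqrt 57 < 8 := by
      rw [show (8:ℝ) = Real.sqrt (8 ^ 2) by rw [Real.sqrt_sq (by norm_num)]]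
      exact Real.sqrt_lt_sqrt (by norm_num) (by norm_num)
    nlinarith
  obtain ⟨V, hV, h⟩ := main 4 h4
  have hD := nablaK_isLeviCivita (μ := 4) (by norm_num)
  exact absurd (h _ hD).1 (not_lt.2 (hQ 4 (by norm_num) _ hD V hV))

end Pool.Agent.Results.MP_627409_gt.XNotMinimising
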